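import Pool.Agent.KS6_51.APT.Lower
import Pool.Agent.KS6_51.APT.Upper
import Pool.Graph.R_pool_sql_team_79ade240.Results.MP_8aa41f_lc.NoLogTests

/-!
# MP_8aa41f_lc, Q1 (negated form): the order of the number of arithmetic-progression tests

`HasProcedure n k m q` (library module `R_pool_sql_team_79ade240/H21/GroupTestingDefs`): there is a
successful two-stage procedure on `[n] = {1, …, n}` for the sets `S` with `|S| ≤ k`, with `m` Stage 1
tests, which are arithmetic progressions in `[n]`, and at most `q` Stage 2 queries.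
-/

set_option autoImplicit false

namespace Pool.Agent.Results.MP_8aa41f_lc.SharpOrder

open Pool.Agent.H21.GroupTesting Pool.Agent.KS6_51.APT

/-- (1) For every `C`, for all large `n` and all `k` with `1 ≤ k ≤ log n / 48`, a procedure with at
most `C k` Stage 2 queries has at least `(log n)² / (3072 log (e log n / k))` Stage 1 tests.

(2) For all large `n` and all `k ≥ 1` there is a procedure without Stage 2 queries which has at most
`64 k² (log n)² / log log n` Stage 1 tests.

(3) So for every fixed `k ≥ 1` and every `C` the least number of Stage 1 tests of a procedure with at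
most `C k` Stage 2 queries is between two positive multiples of `(log n)² / log log n`.

(4) (Q1) In particular `O(k log n)` tests are not enough. -/
theorem result :
    (∀ C : ℝ, ∃ N : ℕ, ∀ n : ℕ, N ≤ n → ∀ k m q : ℕ, 1 ≤ k → 48 * (k : ℝ) ≤ Real.log n →
      (q : ℝ) ≤ C * k → HasProcedure n k m q →
      Real.log n ^ 2 / (3072 * Real.log (Real.exp 1 * Real.log n / k)) ≤ m) ∧
    (∃ N : ℕ, ∀ n : ℕ, N ≤ n → ∀ k : ℕ, 1 ≤ k →
      ∃ m : ℕ, (m : ℝ) ≤ 64 * (k : ℝ) ^ 2 * Real.log n ^ 2 / Real.log (Real.log n) ∧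
        HasProcedure n k m 0) ∧
    (∀ k : ℕ, 1 ≤ k → ∀ C : ℝ, ∃ (c c' : ℝ) (N : ℕ), 0 < c ∧ 0 < c' ∧ ∀ n : ℕ, N ≤ n →
      (∀ m q : ℕ, (q : ℝ) ≤ C * k → HasProcedure n k m q →
        c * (Real.log n ^ 2 / Real.log (Real.log n)) ≤ m) ∧
      ∃ m : ℕ, (m : ℝ) ≤ c' * (Real.log n ^ 2 / Real.log (Real.log n)) ∧
        HasProcedure n k m 0) ∧
    ¬ ∃ C C' : ℝ, ∀ n k : ℕ, 1 ≤ k → k ≤ n → ∃ m q : ℕ, (m : ℝ) ≤ C' * k * Real.log n ∧
      (q : ℝ) ≤ C * k ∧ HasProcedure n k m q := by
  refine ⟨lower, upper, ?_, Pool.Agent.Results.MP_8aa41f_lc.NoLogTests.result.2⟩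
  intro k hk C
  obtain ⟨N₁, h₁⟩ := lower C
  obtain ⟨N₂, h₂⟩ := upper
  have hev : ∀ᶠ x : ℝ in Filter.atTop, 48 * (k : ℝ) ≤ Real.log x ∧ Real.exp 1 ≤ Real.log x :=
    (Real.tendsto_log_atTop.eventually (Filter.eventually_ge_atTop (48 * (k : ℝ)))).and
      (Real.tendsto_log_atTop.eventually (Filter.eventually_ge_atTop (Real.exp 1)))
  obtain ⟨N₃, h₃⟩ := Filter.eventually_atTop.1 (tendsto_natCast_atTop_atTop.eventually hev)
  have hkR : (1 : ℝ) ≤ k := by exact_mod_cast hk
  refine ⟨1 / 6144, 64 * (k : ℝ) ^ 2, max N₁ (max N₂ N₃), by norm_num, by positivity, ?_⟩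
  intro n hn
  obtain ⟨hkL, heL⟩ := h₃ n (le_trans (le_trans (le_max_right _ _) (le_max_right _ _)) hn)
  have hL1 : 1 < Real.log n := by
    have := Real.exp_one_gt_d9
    linarith
  have hLL1 : 1 ≤ Real.log (Real.log n) := by
    have := Real.log_le_log (Real.exp_pos 1) heL
    rwa [Real.log_exp] at this
  refine ⟨?_, ?_⟩
  · intro m q hq hP
    refine le_trans ?_ (h₁ n (le_trans (le_max_left _ _) hn) k m q hk hkL hq hP)
    have e1 : Real.log (Real.exp 1 * Real.log n / k) ≤ 2 * Real.log (Real.log n) := by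
      have a1 : Real.exp 1 * Real.log n / k ≤ Real.exp 1 * Real.log n :=
        div_le_self (by positivity) hkR
      have a2 : 0 < Real.exp 1 * Real.log n / k := by
        have : (0 : ℝ) < k := by linarith
        positivity
      have a3 := Real.log_le_log a2 a1
      rw [Real.log_mul (Real.exp_ne_zero _) (by linarith), Real.log_exp] at a3
      linarith
    have e2 : 0 < Real.log (Real.exp 1 * Real.log n / k) := by
      apply Real.log_pos
      have hk0 : (0 : ℝ) < k := by linarith
      rw [lt_div_iff₀ hk0, one_mul]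
      have := Real.exp_one_gt_d9
      nlinarith
    have e3 : (1 / 6144 : ℝ) * (Real.log n ^ 2 / Real.log (Real.log n)) =
        Real.log n ^ 2 / (3072 * (2 * Real.log (Real.log n))) := by
      field_simp
      norm_num
    rw [e3]
    gcongr
  · obtain ⟨m, hm, hP⟩ := h₂ n (le_trans (le_trans (le_max_left _ _) (le_max_right _ _)) hn) k hk
    refine ⟨m, ?_, hP⟩
    rw [← mul_div_assoc]
    exact hm

end Pool.Agent.Results.MP_8aa41f_lc.SharpOrder
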